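import Pool.Agent.Y706.SB.Stm

/-!
The local estimate at a place of bad reduction (`Pool.Agent.Y706.SB.S_LOC`).
-/

set_option autoImplicit false

namespace Pool.Agent.Y658.SB

open Polynomial Pool.Agent.Y706.SB

universe w

theorem D_eval {K : Type w} [Field K] (D : Derivation ℤ K K) (q : K[X]) (hq : ∀ m, D (q.coeff m) = 0) (y : K) :
    D (q.eval y) = q.derivative.eval y * D y := by
  rw [Polynomial.eval_eq_sum, Polynomial.derivative_eval, Polynomial.sum, Polynomial.sum, map_sum,
    Finset.sum_mul]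
  refine Finset.sum_congr rfl fun n _ => ?_
  rw [Derivation.leibniz, hq, smul_zero, add_zero, Derivation.leibniz_pow]
  simp only [smul_eq_mul, nsmul_eq_mul]
  ring

theorem D_hasse {K : Type w} [Field K] (D : Derivation ℤ K K) (q : K[X]) (hq : ∀ m, D (q.coeff m) = 0) (j m : ℕ) :
    D ((hasseDeriv j q).coeff m) = 0 := by
  rw [hasseDeriv_coeff, Derivation.leibniz, hq, Derivation.map_natCast, smul_zero, smul_zero,
    add_zero]

theorem der_hasse {K : Type w} [Field K] (q : K[X]) (j : ℕ) :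
    derivative (hasseDeriv j q) = ((j + 1 : ℕ) : K[X]) * hasseDeriv (j + 1) q := by
  have h := LinearMap.congr_fun (hasseDeriv_comp (R := K) 1 j) q
  rw [LinearMap.comp_apply, hasseDeriv_one] at h
  rw [h, Nat.choose_one_right, LinearMap.smul_apply, nsmul_eq_mul, add_comm 1 j]

theorem D_hasse_eval {K : Type w} [Field K] (D : Derivation ℤ K K) (q : K[X]) (hq : ∀ m, D (q.coeff m) = 0) (j : ℕ)
    (y : K) : D ((hasseDeriv j q).eval y) =
      ((j + 1 : ℕ) : K) * (hasseDeriv (j + 1) q).eval y * D y := by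
  rw [D_eval D _ (fun m => D_hasse D q hq j m) y, der_hasse, eval_mul, eval_natCast]

/-- points of a finite orbit -/
theorem fin_orb {K : Type w} (F : K → K) (y : K) (h : ∃ m n : ℕ, m < n ∧ F^[m] y = F^[n] y) :
    ∃ m n : ℕ, m < n ∧ F^[m] (F y) = F^[n] (F y) := by
  obtain ⟨m, n, h1, h2⟩ := h
  refine ⟨m, n, h1, ?_⟩
  rw [← Function.iterate_succ_apply, ← Function.iterate_succ_apply, Function.iterate_succ_apply',
    Function.iterate_succ_apply', h2]

theorem t_LOC (hESC : S_ESC.{w}) (hKK : S_KK.{w}) : S_LOC.{w} := by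
  intro p K _ _ o ho D loss hD g d hd hd2 hdp hg V t ht hVt hA hc hex h0 h1 x m hm hx hDx
  set F : K → K := fun z => g.eval z with hF
  have hesc : ∀ y : K, (∃ m n : ℕ, m < n ∧ F^[m] y = F^[n] y) → y ≠ 0 → V - t ≤ (o y : ℝ) := by
    rintro y ⟨a, b, hab, h⟩ hy
    exact hESC p K o ho g d hd hd2 V t ht.le hA hc y a b hab h hy
  have hper : ∀ i, F^[m] (F^[i] x) = F^[i] x := by
    intro i
    rw [← Function.iterate_add_apply, add_comm, Function.iterate_add_apply, hx]
  have hfin : ∀ i, ∃ a b : ℕ, a < b ∧ F^[a] (F^[i] x) = F^[b] (F^[i] x) := fun i =>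
    ⟨0, m, hm, (hper i).symm⟩
  have hDF : ∀ y, D (F y) = g.derivative.eval y * D y := fun y => D_eval D g hg y
  have hD0 : ∀ (N : ℕ) (y : K), D y = 0 → D (F^[N] y) = 0 := by
    intro N
    induction N with
    | zero => intro y hy; exact hy
    | succ N ih =>
      intro y hy
      rw [Function.iterate_succ_apply]
      apply ih
      rw [hDF, hy, mul_zero]
  have hDy : ∀ i, D (F^[i] x) ≠ 0 := by
    intro i hi
    apply hDx
    have h2 : F^[m * i] x = x := by
      have h3 : Function.IsPeriodicPt F m x := hx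
      exact (h3.mul_const i)
    have h3 : m * i = (m * i - i) + i := by
      have : i ≤ m * i := Nat.le_mul_of_pos_left i hm
      omega
    rw [← h2, h3, Function.iterate_add_apply]
    exact hD0 _ _ hi
  -- the main inequality
  have hmain : ∀ i : ℕ, ∃ j : ℕ, 1 ≤ j ∧ j < d ∧
      ((o (D (F^[i + 1] x)) : ℝ) + 1 + loss - V) ≤
        j * ((o (D (F^[i] x)) : ℝ) + 1 + loss - V) - ((d : ℝ) - j) * t := by
    intro i
    set y := F^[i] x with hy
    obtain ⟨j, hj1, hjd, hcj, hoj⟩ := hKK p K o ho g d hd hd2 hdp V t ht hVt hA hc hex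
      (fun h => hesc (F 0) (fin_orb F 0 h0) h) (fun h => hesc (F 1) (fin_orb F 1 h1) h) y
      (fun h => hesc y (hfin i) h) (fun h => hesc (F y) (fin_orb F y (hfin i)) h)
    refine ⟨j, hj1, hjd, ?_⟩
    set eps : ℝ := (o (D y) : ℝ) + 1 + loss with heps
    have hind : ∀ l : ℕ, l < j → (hasseDeriv (j - l) g).eval y ≠ 0 ∧
        (o ((hasseDeriv (j - l) g).eval y) : ℝ) ≤ o ((hasseDeriv j g).eval y) + l * eps := by
      intro l
      induction l with
      | zero =>
        intro _
        refine ⟨by simpa using hcj, by simp⟩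
      | succ l ih =>
        intro hl
        obtain ⟨ih1, ih2⟩ := ih (by omega)
        have e1 : j - (l + 1) + 1 = j - l := by omega
        have h2 := D_hasse_eval D g hg (j - (l + 1)) y
        rw [e1] at h2
        obtain ⟨h3, h4⟩ := ho.nat (j - l) (by omega) (by omega)
        have h5 : ((j - l : ℕ) : K) * (hasseDeriv (j - l) g).eval y ≠ 0 := mul_ne_zero h3 ih1
        have h6 : D ((hasseDeriv (j - (l + 1)) g).eval y) ≠ 0 := by
          rw [h2]
          exact mul_ne_zero h5 (hDy i)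
        have h7 : (hasseDeriv (j - (l + 1)) g).eval y ≠ 0 := by
          intro h8
          rw [h8, map_zero] at h6
          exact h6 rfl
        refine ⟨h7, ?_⟩
        have h8 := hD _ h7 h6
        rw [h2, ho.mul _ _ h5 (hDy i), ho.mul _ _ h3 ih1, h4] at h8
        push_cast at h8 ⊢
        have h9 : (o ((hasseDeriv (j - l) g).eval y) : ℝ) ≤
          o ((hasseDeriv j g).eval y) + l * eps := ih2
        rw [heps] at h9 ⊢
        linarith
    obtain ⟨k1, k2⟩ := hind (j - 1) (by omega)
    have e2 : j - (j - 1) = 1 := by omega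
    rw [e2, hasseDeriv_one] at k1 k2
    have e3 : F^[i + 1] x = F y := by rw [hy, Function.iterate_succ_apply']
    have e4 : (o (D (F^[i + 1] x)) : ℝ) = o (g.derivative.eval y) + o (D y) := by
      rw [e3, hDF, ho.mul _ _ k1 (hDy i)]
      push_cast
      ring
    have e5 : ((j - 1 : ℕ) : ℝ) = (j : ℝ) - 1 := by
      rw [Nat.cast_sub hj1, Nat.cast_one]
    rw [e5] at k2
    rw [e4]
    have e6 : (o g.leadingCoeff : ℝ) = -(((d : ℝ) - 1) * V) := by rw [hA, neg_neg]
    rw [e6] at hoj
    have e7 : (o (D y) : ℝ) = eps - 1 - loss := by rw [heps]; ring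
    rw [e7]
    nlinarith
  -- the minimum
  have hd1 : (0 : ℝ) < (d : ℝ) - 1 := by
    have : (2 : ℝ) ≤ d := by exact_mod_cast hd2
    linarith
  obtain ⟨i0, hi0, hmin⟩ := Finset.exists_min_image (Finset.range m)
    (fun i => (o (D (F^[i] x)) : ℝ)) ⟨0, Finset.mem_range.mpr hm⟩
  have hmin' : ∀ i, (o (D (F^[i0] x)) : ℝ) ≤ o (D (F^[i] x)) := by
    intro i
    have h2 : Function.IsPeriodicPt F m x := hx
    have h3 := hmin (i % m) (Finset.mem_range.mpr (Nat.mod_lt _ hm))
    simp only [h2.iterate_mod_apply i] at h3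
    exact h3
  obtain ⟨j, hj1, hjd, hj⟩ := hmain i0
  have h2 := hmin' (i0 + 1)
  have h3 := hmin' 0
  rw [Function.iterate_zero, id_eq] at h3
  set E : ℝ := (o (D (F^[i0] x)) : ℝ) + 1 + loss - V with hE
  have h4 : E ≤ j * E - ((d : ℝ) - j) * t := by
    refine le_trans ?_ hj
    rw [hE]
    linarith
  have hj1' : (1 : ℝ) ≤ j := by exact_mod_cast hj1
  have hjd' : (j : ℝ) + 1 ≤ d := by exact_mod_cast hjd
  have h5 : t ≤ ((j : ℝ) - 1) * E := by nlinarith
  have h6 : 0 < E := by
    by_contra hne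
    push Not at hne
    nlinarith
  have h7 : t ≤ ((d : ℝ) - 1) * E := by nlinarith
  have h8 : t / ((d : ℝ) - 1) ≤ E := by
    rw [div_le_iff₀ hd1]
    linarith
  rw [hE] at h8
  linarith

end Pool.Agent.Y658.SB
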